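import Mathlib
import Pool.Agent.Work.MP_38bc51_pr.Defs

/-!
# A `k`-dependent hard-core process with marginal `k / (2 (k + 1))`

The process is a block factor of an i.i.d. sequence `ω` of symmetric variables without atoms. With
`θ = π / (k + 1)` and `w m = ∑_{j ≤ k} (-1)^j sin ((j + m) θ) ω_j`, the signed cyclic shift of
`ω_0, ..., ω_k` maps `w m` to `w (m + 1)`, and `w (m + k + 1) = - w m`; hence
`P (w m ≥ 0 > w (m + 1)) = 1 / (2 (k + 1))`.
-/

namespace HC38bc51

open MeasureTheory ProbabilityTheory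

namespace AllK

/-- the law of one variable -/
noncomputable abbrev nu : Measure ℝ := gaussianReal 0 1

/-- the law of the i.i.d. sequence -/
noncomputable abbrev Pr : Measure (ℤ → ℝ) := Measure.infinitePi (fun _ : ℤ => nu)

/-- permutations of the coordinates preserve the law -/
theorem map_perm (e : Equiv.Perm ℤ) : Pr.map (fun ω i => ω (e i)) = Pr := by
  have h := Measure.infinitePi_map_piCongrLeft (X := fun _ : ℤ => ℝ) (μ := fun _ : ℤ => nu) e.symm
  have e1 : (MeasurableEquiv.piCongrLeft (fun _ : ℤ => ℝ) e.symm : (ℤ → ℝ) → (ℤ → ℝ))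
      = fun ω i => ω (e i) := by
    funext ω i
    have := MeasurableEquiv.piCongrLeft_apply_apply (β := fun _ : ℤ => ℝ) e.symm ω (e i)
    simpa using this
  rw [e1] at h
  exact h

/-- sign changes of the coordinates preserve the law -/
theorem map_sign (s : ℤ → ℝ) (hs : ∀ i, s i = 1 ∨ s i = -1) :
    Pr.map (fun ω i => s i * ω i) = Pr := by
  have h := Measure.infinitePi_map_pi (μ := fun _ : ℤ => nu) (f := fun i (x : ℝ) => s i * x)
    (fun i => measurable_const.mul measurable_id)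
  rw [h]
  congr 1
  funext i
  rcases hs i with h1 | h1
  · simp only [h1, one_mul]
    exact Measure.map_id
  · simp only [h1, neg_mul, one_mul]
    have := gaussianReal_map_neg (μ := 0) (v := 1)
    simpa using this

theorem coord_iIndep : iIndepFun (fun (i : ℤ) (ω : ℤ → ℝ) => ω i) Pr := by
  rw [iIndepFun_iff_map_fun_eq_infinitePi_map (fun i => measurable_pi_apply i)]
  have e : (fun i : ℤ => Pr.map (fun ω : ℤ → ℝ => ω i)) = fun _ => nu := by
    funext i
    exact Measure.infinitePi_map_eval (fun _ : ℤ => nu) i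
  rw [e]
  exact Measure.map_id

/-- the σ-algebra of the coordinates in `S` -/
@[reducible] def sig (S : Set ℤ) : MeasurableSpace (ℤ → ℝ) :=
  ⨆ i ∈ S, MeasurableSpace.comap (fun ω : ℤ → ℝ => ω i) inferInstance

theorem sig_indep {S T : Set ℤ} (h : Disjoint S T) : Indep (sig S) (sig T) Pr :=
  indep_iSup_of_disjoint (fun i => (measurable_pi_apply i).comap_le) coord_iIndep.iIndep h

theorem sig_le (S : Set ℤ) : sig S ≤ MeasurableSpace.pi :=
  iSup₂_le fun i _ => (measurable_pi_apply i).comap_le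

theorem meas_coord {S : Set ℤ} {i : ℤ} (hi : i ∈ S) : Measurable[sig S] (fun ω : ℤ → ℝ => ω i) :=
  Measurable.of_comap_le (le_iSup₂_of_le i hi le_rfl)

/-- the angle -/
noncomputable def th (k : ℕ) : ℝ := Real.pi / (k + 1)

theorem th_pos (k : ℕ) : 0 < th k := div_pos Real.pi_pos (by positivity)

theorem th_mul (k : ℕ) : ((k : ℝ) + 1) * th k = Real.pi := by
  unfold th
  field_simp

theorem sin_nonneg' {k : ℕ} {j : ℕ} (h : j ≤ k + 1) : 0 ≤ Real.sin (j * th k) := by
  apply Real.sin_nonneg_of_nonneg_of_le_pi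
  · exact mul_nonneg (Nat.cast_nonneg _) (th_pos k).le
  · rw [← th_mul k]
    have : (j : ℝ) ≤ (k : ℝ) + 1 := by exact_mod_cast h
    exact mul_le_mul_of_nonneg_right this (th_pos k).le

theorem sin_pos' {k : ℕ} {j : ℕ} (h0 : 1 ≤ j) (h : j ≤ k) : 0 < Real.sin (j * th k) := by
  apply Real.sin_pos_of_pos_of_lt_pi
  · have : (0 : ℝ) < j := by exact_mod_cast h0
    exact mul_pos this (th_pos k)
  · rw [← th_mul k]
    have : (j : ℝ) < (k : ℝ) + 1 := by exact_mod_cast (by omega : j < k + 1)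
    exact mul_lt_mul_of_pos_right this (th_pos k)

/-- the linear forms -/
noncomputable def w (k m : ℕ) (ω : ℤ → ℝ) : ℝ :=
  ∑ j ∈ Finset.range (k + 1), (-1 : ℝ) ^ j * Real.sin (((j : ℝ) + m) * th k) * ω j

theorem measurable_w (k m : ℕ) : Measurable (w k m) := by
  unfold w
  exact Finset.measurable_sum _ fun j _ => measurable_const.mul (measurable_pi_apply _)

/-- half a period -/
theorem w_half (k m : ℕ) (ω : ℤ → ℝ) : w k (m + (k + 1)) ω = - w k m ω := by
  unfold w
  rw [← Finset.sum_neg_distrib]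
  refine Finset.sum_congr rfl fun j _ => ?_
  have e : ((j : ℝ) + (m + (k + 1) : ℕ)) * th k = ((j : ℝ) + m) * th k + Real.pi := by
    rw [← th_mul k]
    push_cast
    ring
  rw [e, Real.sin_add_pi]
  ring

/-- three consecutive values of a sinusoid -/
theorem sin_comb (θ a b : ℝ) : Real.sin θ * Real.sin (a + (b + θ))
    = Real.sin (b + θ) * Real.sin (a + θ) - Real.sin b * Real.sin a := by
  rw [Real.sin_add a (b + θ), Real.sin_add b θ, Real.sin_add a θ, Real.cos_add b θ]
  have := Real.sin_sq_add_cos_sq θ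
  linear_combination (-(Real.sin b * Real.sin a)) * this

theorem w_forward (k m j : ℕ) (ω : ℤ → ℝ) :
    Real.sin (th k) * w k (m + (j + 1)) ω
      = Real.sin ((j + 1 : ℕ) * th k) * w k (m + 1) ω - Real.sin (j * th k) * w k m ω := by
  unfold w
  rw [Finset.mul_sum, Finset.mul_sum, Finset.mul_sum, ← Finset.sum_sub_distrib]
  refine Finset.sum_congr rfl fun i _ => ?_
  have h := sin_comb (th k) (((i : ℝ) + m) * th k) (j * th k)
  have e1 : ((i : ℝ) + (m + (j + 1) : ℕ)) * th k
      = ((i : ℝ) + m) * th k + (j * th k + th k) := by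
    push_cast; ring
  have e2 : ((i : ℝ) + (m + 1 : ℕ)) * th k = ((i : ℝ) + m) * th k + th k := by
    push_cast; ring
  have e3 : ((j + 1 : ℕ) : ℝ) * th k = j * th k + th k := by
    push_cast; ring
  rw [e1, e2, e3]
  linear_combination ((-1 : ℝ) ^ i * ω i) * h

theorem w_backward (k m j : ℕ) (ω : ℤ → ℝ) :
    Real.sin (th k) * w k m ω
      = Real.sin ((j + 1 : ℕ) * th k) * w k (m + j) ω - Real.sin (j * th k) * w k (m + j + 1) ω := by
  unfold w
  rw [Finset.mul_sum, Finset.mul_sum, Finset.mul_sum, ← Finset.sum_sub_distrib]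
  refine Finset.sum_congr rfl fun i _ => ?_
  have h : ∀ θ a b : ℝ, Real.sin θ * Real.sin a = Real.sin (b + θ) * Real.sin (a + b)
      - Real.sin b * Real.sin (a + b + θ) := by
    intro θ a b
    rw [Real.sin_add (a + b) θ, Real.sin_add a b, Real.cos_add a b, Real.sin_add b θ]
    have := Real.sin_sq_add_cos_sq b
    linear_combination (-(Real.sin θ * Real.sin a)) * this
  have h := h (th k) (((i : ℝ) + m) * th k) (j * th k)
  have e1 : ((i : ℝ) + (m + j + 1 : ℕ)) * th k
      = ((i : ℝ) + m) * th k + j * th k + th k := by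
    push_cast; ring
  have e2 : ((i : ℝ) + (m + j : ℕ)) * th k = ((i : ℝ) + m) * th k + j * th k := by
    push_cast; ring
  have e3 : ((j + 1 : ℕ) : ℝ) * th k = j * th k + th k := by
    push_cast; ring
  rw [e1, e2, e3]
  linear_combination ((-1 : ℝ) ^ i * ω i) * h

/-- down-crossings -/
def E (k m : ℕ) : Set (ℤ → ℝ) := {ω | 0 ≤ w k m ω ∧ w k (m + 1) ω < 0}

theorem measurableSet_E (k m : ℕ) : MeasurableSet (E k m) :=
  (measurableSet_le measurable_const (measurable_w k m)).inter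
    (measurableSet_lt (measurable_w k (m + 1)) measurable_const)

theorem sin_th_pos {k : ℕ} (hk : 1 ≤ k) : 0 < Real.sin (th k) := by
  have := sin_pos' (k := k) (j := 1) le_rfl hk
  simpa using this

theorem E_disj {k : ℕ} (hk : 1 ≤ k) {m m' : ℕ} (h : m < m') (h' : m' ≤ k) :
    Disjoint (E k m) (E k m') := by
  rw [Set.disjoint_left]
  rintro ω ⟨h1, h2⟩ ⟨h3, -⟩
  obtain ⟨j, rfl⟩ : ∃ j, m' = m + (j + 1) := ⟨m' - m - 1, by omega⟩
  have h4 := w_forward k m j ω
  have h5 := sin_pos' (k := k) (j := j + 1) (by omega) (by omega)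
  have h6 := sin_nonneg' (k := k) (j := j) (by omega)
  have h7 := sin_th_pos hk
  have h8 : 0 ≤ Real.sin (th k) * w k (m + (j + 1)) ω := mul_nonneg h7.le h3
  have h9 : Real.sin ((j + 1 : ℕ) * th k) * w k (m + 1) ω < 0 := mul_neg_of_pos_of_neg h5 h2
  have h10 : 0 ≤ Real.sin (j * th k) * w k m ω := mul_nonneg h6 h1
  linarith

theorem E_sub {k : ℕ} (hk : 1 ≤ k) {m : ℕ} (h : m ≤ k) {ω : ℤ → ℝ} (hω : ω ∈ E k m) :
    0 ≤ w k 0 ω := by
  obtain ⟨h1, h2⟩ := hω
  have h4 := w_backward k 0 m ω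
  have h5 := sin_nonneg' (k := k) (j := m + 1) (by omega)
  have h6 := sin_nonneg' (k := k) (j := m) (by omega)
  have h7 := sin_th_pos hk
  rw [zero_add] at h4
  have h8 : 0 ≤ Real.sin (th k) * w k 0 ω := by
    rw [h4]
    have h9 := mul_nonneg h5 h1
    have h10 := mul_nonneg h6 (neg_nonneg.2 h2.le)
    linarith
  exact nonneg_of_mul_nonneg_right h8 h7

theorem exists_E {k : ℕ} {ω : ℤ → ℝ} (h : 0 < w k 0 ω) : ∃ m ∈ Finset.range (k + 1), ω ∈ E k m := by
  by_contra hcon
  push Not at hcon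
  have h1 : ∀ m, m ≤ k + 1 → 0 ≤ w k m ω := by
    intro m
    induction m with
    | zero => intro _; exact h.le
    | succ m ih =>
      intro hm
      have h2 := ih (by omega)
      by_contra h3
      exact hcon m (Finset.mem_range.2 (by omega)) ⟨h2, not_le.1 h3⟩
  have h2 := h1 (k + 1) le_rfl
  have h3 := w_half k 0 ω
  rw [zero_add] at h3
  rw [h3] at h2
  linarith

/-- the cyclic permutation of `0, ..., k` -/
def cyc (k : ℕ) : Equiv.Perm ℤ where
  toFun j := if 1 ≤ j ∧ j ≤ k then j - 1 else if j = 0 then k else j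
  invFun j := if 0 ≤ j ∧ j < k then j + 1 else if j = k then 0 else j
  left_inv j := by
    dsimp only
    split_ifs <;> omega
  right_inv j := by
    dsimp only
    split_ifs <;> omega

/-- the signs -/
def sgn (k : ℕ) (j : ℤ) : ℝ := if 1 ≤ j ∧ j ≤ k then -1 else if j = 0 then (-1) ^ (k + 1) else 1

theorem sgn_cases (k : ℕ) (j : ℤ) : sgn k j = 1 ∨ sgn k j = -1 := by
  unfold sgn
  split_ifs
  · exact Or.inr rfl
  · exact neg_one_pow_eq_or ℝ (k + 1)
  · exact Or.inl rfl

/-- the signed cyclic shift -/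
def T (k : ℕ) (ω : ℤ → ℝ) : ℤ → ℝ := fun i => sgn k i * ω (cyc k i)

theorem measurable_T (k : ℕ) : Measurable (T k) :=
  measurable_pi_iff.2 fun _ => measurable_const.mul (measurable_pi_apply _)

theorem map_T (k : ℕ) : Pr.map (T k) = Pr := by
  have h1 := map_perm (cyc k)
  have h2 := map_sign (sgn k) (sgn_cases k)
  have h3 : T k = (fun (ω : ℤ → ℝ) i => sgn k i * ω i) ∘ (fun ω i => ω (cyc k i)) := rfl
  rw [h3, ← Measure.map_map, h1, h2]
  · exact measurable_pi_iff.2 fun _ => measurable_const.mul (measurable_pi_apply _)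
  · exact measurable_pi_iff.2 fun _ => measurable_pi_apply _

theorem w_T (k m : ℕ) (ω : ℤ → ℝ) : w k m (T k ω) = w k (m + 1) ω := by
  unfold w
  rw [Finset.sum_range_succ', Finset.sum_range_succ]
  have h0 : T k ω ((0 : ℕ) : ℤ) = (-1) ^ (k + 1) * ω k := by
    unfold T sgn
    simp [cyc]
  have h1 : ∀ j ∈ Finset.range k, (-1 : ℝ) ^ (j + 1) * Real.sin ((((j + 1 : ℕ) : ℝ) + m) * th k)
      * T k ω ((j + 1 : ℕ) : ℤ)
      = (-1 : ℝ) ^ j * Real.sin (((j : ℝ) + (m + 1 : ℕ)) * th k) * ω j := by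
    intro j hj
    rw [Finset.mem_range] at hj
    have e1 : T k ω ((j + 1 : ℕ) : ℤ) = - ω j := by
      unfold T sgn cyc
      have c1 : (1 : ℤ) ≤ ((j + 1 : ℕ) : ℤ) ∧ ((j + 1 : ℕ) : ℤ) ≤ k := by
        push_cast
        omega
      simp only [Equiv.coe_fn_mk, if_pos c1]
      have : ((j + 1 : ℕ) : ℤ) - 1 = j := by push_cast; ring
      rw [this]
      ring
    have e2 : (((j + 1 : ℕ) : ℝ) + m) * th k = ((j : ℝ) + (m + 1 : ℕ)) * th k := by
      push_cast; ring
    rw [e1, e2, pow_succ]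
    ring
  rw [Finset.sum_congr rfl h1, h0]
  congr 1
  have e3 : ((k : ℝ) + (m + 1 : ℕ)) * th k = (m : ℝ) * th k + Real.pi := by
    rw [← th_mul k]
    push_cast
    ring
  have e4 : (((0 : ℕ) : ℝ) + m) * th k = m * th k := by
    push_cast; ring
  rw [e3, e4, Real.sin_add_pi, pow_succ]
  ring

theorem E_T (k m : ℕ) : Pr (E k (m + 1)) = Pr (E k m) := by
  have h1 : E k (m + 1) = T k ⁻¹' (E k m) := by
    ext ω
    simp only [E, Set.mem_ofPred_eq, Set.mem_preimage, w_T]
  rw [h1, ← Measure.map_apply (measurable_T k) (measurableSet_E k m), map_T]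

theorem E_eq (k m : ℕ) : Pr (E k m) = Pr (E k 0) := by
  induction m with
  | zero => rfl
  | succ m ih => rw [E_T, ih]

/-- no atoms -/
theorem w_zero_null {k : ℕ} (hk : 1 ≤ k) : Pr {ω | w k 0 ω = 0} = 0 := by
  classical
  -- the part without the coordinate `1`
  let R : (ℤ → ℝ) → ℝ := fun ω => ∑ j ∈ (Finset.range (k + 1)).erase 1,
    (-1 : ℝ) ^ j * Real.sin (((j : ℝ) + (0 : ℕ)) * th k) * ω j
  have hw : ∀ ω, w k 0 ω = - Real.sin (th k) * ω 1 + R ω := by
    intro ω
    unfold w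
    rw [← Finset.add_sum_erase _ _ (show 1 ∈ Finset.range (k + 1) from
      Finset.mem_range.2 (by omega))]
    simp [R]
  have hR : Measurable[sig ({1} : Set ℤ)ᶜ] R := by
    refine Finset.measurable_sum _ fun j hj => ?_
    refine Measurable.const_mul (meas_coord ?_) _
    rw [Finset.mem_erase] at hj
    rw [Set.mem_compl_iff, Set.mem_singleton_iff]
    intro h
    exact hj.1 (by exact_mod_cast h)
  have hR' : Measurable R := hR.mono (sig_le _) le_rfl
  have h1 : Measurable (fun ω : ℤ → ℝ => ω 1) := measurable_pi_apply 1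
  have hind : IndepFun R (fun ω : ℤ → ℝ => ω 1) Pr := by
    rw [IndepFun_iff_Indep]
    refine indep_of_indep_of_le_left (indep_of_indep_of_le_right
      (sig_indep (S := ({1} : Set ℤ)ᶜ) (T := {1}) disjoint_compl_left) ?_) ?_
    · exact (meas_coord (S := {1}) rfl).comap_le
    · exact hR.comap_le
  rw [indepFun_iff_map_prod_eq_prod_map_map hR'.aemeasurable h1.aemeasurable] at hind
  have h2 : Pr.map (fun ω : ℤ → ℝ => ω 1) = nu := Measure.infinitePi_map_eval (fun _ : ℤ => nu) 1
  rw [h2] at hind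
  have hs : MeasurableSet {p : ℝ × ℝ | - Real.sin (th k) * p.2 + p.1 = 0} :=
    measurableSet_eq_fun (by fun_prop) (by fun_prop)
  have h3 : {ω | w k 0 ω = 0} = (fun ω : ℤ → ℝ => (R ω, ω 1)) ⁻¹'
      {p : ℝ × ℝ | - Real.sin (th k) * p.2 + p.1 = 0} := by
    ext ω
    simp only [Set.mem_ofPred_eq, Set.mem_preimage, hw]
  rw [h3, ← Measure.map_apply (hR'.prodMk h1) hs, hind]
  rw [Measure.measure_prod_null hs]
  have : NullSingletonClass nu := nullSingletonClass_gaussianReal one_ne_zero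
  refine Filter.Eventually.of_forall fun r => ?_
  refine Set.Subsingleton.measure_zero ?_ _
  intro x hx y hy
  simp only [Set.mem_preimage, Set.mem_ofPred_eq] at hx hy
  have h7 := sin_th_pos hk
  have h8 : Real.sin (th k) * (x - y) = 0 := by linarith
  rcases mul_eq_zero.1 h8 with h9 | h9
  · linarith
  · linarith

theorem w_one_null {k : ℕ} (hk : 1 ≤ k) : Pr {ω | w k 1 ω = 0} = 0 := by
  have h1 : {ω | w k 1 ω = 0} = T k ⁻¹' {ω | w k 0 ω = 0} := by
    ext ω
    simp only [Set.mem_ofPred_eq, Set.mem_preimage, w_T]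
  rw [h1, ← Measure.map_apply (measurable_T k)
    (measurableSet_eq_fun (measurable_w k 0) measurable_const), map_T, w_zero_null hk]

theorem w_neg (k m : ℕ) (ω : ℤ → ℝ) : w k m (fun i => (-1) * ω i) = - w k m ω := by
  unfold w
  rw [← Finset.sum_neg_distrib]
  exact Finset.sum_congr rfl fun j _ => by ring

theorem w_pos_half {k : ℕ} (hk : 1 ≤ k) : Pr.real {ω | 0 < w k 0 ω} = 1 / 2 ∧
    Pr.real {ω | 0 ≤ w k 0 ω} = 1 / 2 := by
  have hm : MeasurableSet {ω | 0 < w k 0 ω} := measurableSet_lt measurable_const (measurable_w k 0)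
  have hm0 : MeasurableSet {ω | w k 0 ω = 0} :=
    measurableSet_eq_fun (measurable_w k 0) measurable_const
  have h1 : Pr.real {ω | w k 0 ω < 0} = Pr.real {ω | 0 < w k 0 ω} := by
    have h2 := map_sign (fun _ => -1) (fun _ => Or.inr rfl)
    have h3 : {ω | w k 0 ω < 0} = (fun (ω : ℤ → ℝ) i => (-1 : ℝ) * ω i) ⁻¹' {ω | 0 < w k 0 ω} := by
      ext ω
      simp only [Set.mem_ofPred_eq, Set.mem_preimage, w_neg]
      constructor <;> intro h <;> linarith
    have hmeas : Measurable (fun (ω : ℤ → ℝ) (i : ℤ) => (-1 : ℝ) * ω i) :=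
      measurable_pi_iff.2 fun _ => measurable_const.mul (measurable_pi_apply _)
    have h4 : Pr {ω | w k 0 ω < 0} = Pr {ω | 0 < w k 0 ω} := by
      rw [h3, ← Measure.map_apply hmeas hm, h2]
    unfold Measure.real
    rw [h4]
  have h0 : Pr.real {ω | w k 0 ω = 0} = 0 := by
    unfold Measure.real
    rw [w_zero_null hk]
    rfl
  have h5 : Pr.real {ω | 0 ≤ w k 0 ω} = Pr.real {ω | 0 < w k 0 ω} := by
    have e : {ω | 0 ≤ w k 0 ω} = {ω | 0 < w k 0 ω} ∪ {ω | w k 0 ω = 0} := by
      ext ω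
      simp only [Set.mem_ofPred_eq, Set.mem_union]
      rw [le_iff_lt_or_eq, eq_comm (a := (0 : ℝ))]
    rw [e, measureReal_union _ hm0, h0, add_zero]
    rw [Set.disjoint_left]
    intro ω h6 h7
    simp only [Set.mem_ofPred_eq] at h6 h7
    linarith
  have h6 : Pr.real {ω | 0 ≤ w k 0 ω} + Pr.real {ω | w k 0 ω < 0} = 1 := by
    have e : {ω | w k 0 ω < 0} = {ω | 0 ≤ w k 0 ω}ᶜ := by
      ext ω
      simp only [Set.mem_ofPred_eq, Set.mem_compl_iff, not_le]
    rw [e]
    exact probReal_add_probReal_compl (measurableSet_le measurable_const (measurable_w k 0))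
  rw [h1, h5] at h6
  constructor
  · linarith
  · rw [h5]; linarith

/-- the probability of one down-crossing -/
theorem E_prob {k : ℕ} (hk : 1 ≤ k) : Pr.real (E k 0) = 1 / (2 * (k + 1)) := by
  have h1 : Pr.real (⋃ m ∈ Finset.range (k + 1), E k m)
      = ∑ m ∈ Finset.range (k + 1), Pr.real (E k m) := by
    refine measureReal_biUnion_finset ?_ (fun m _ => measurableSet_E k m)
    intro m hm m' hm' hne
    rw [Finset.mem_coe, Finset.mem_range] at hm hm'
    rcases lt_or_gt_of_ne hne with h | h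
    · exact E_disj hk h (by omega)
    · exact (E_disj hk h (by omega)).symm
  have h2 : ∀ m ∈ Finset.range (k + 1), Pr.real (E k m) = Pr.real (E k 0) := by
    intro m _
    unfold Measure.real
    rw [E_eq]
  rw [Finset.sum_congr rfl h2, Finset.sum_const, Finset.card_range, nsmul_eq_mul] at h1
  have h3 : Pr.real {ω | 0 < w k 0 ω} ≤ Pr.real (⋃ m ∈ Finset.range (k + 1), E k m) := by
    refine measureReal_mono ?_ (measure_ne_top _ _)
    intro ω hω
    obtain ⟨m, hm, h⟩ := exists_E hω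
    exact Set.mem_biUnion hm h
  have h4 : Pr.real (⋃ m ∈ Finset.range (k + 1), E k m) ≤ Pr.real {ω | 0 ≤ w k 0 ω} := by
    refine measureReal_mono ?_ (measure_ne_top _ _)
    intro ω hω
    rw [Set.mem_iUnion₂] at hω
    obtain ⟨m, hm, h⟩ := hω
    exact E_sub hk (by rw [Finset.mem_range] at hm; omega) h
  rw [(w_pos_half hk).1] at h3
  rw [(w_pos_half hk).2] at h4
  rw [h1] at h3 h4
  push_cast at h3 h4
  have hk0 : (0 : ℝ) < (k : ℝ) + 1 := by positivity
  rw [eq_div_iff (by positivity)]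
  linarith

/-- the block factor -/
noncomputable def Y (k : ℕ) (i : ℤ) (ω : ℤ → ℝ) : ℝ :=
  ∑ j ∈ Finset.range k, (-1 : ℝ) ^ j * Real.sin (((j : ℝ) + 1) * th k) * ω (i + j)

open Classical in
/-- the hard-core process -/
noncomputable def X (k : ℕ) (i : ℤ) (ω : ℤ → ℝ) : Bool := decide (0 < Y k i ω ∧ Y k (i + 1) ω ≤ 0)

theorem Y_zero (k : ℕ) (ω : ℤ → ℝ) : Y k 0 ω = w k 1 ω := by
  unfold Y w
  rw [Finset.sum_range_succ]
  have e : ((k : ℝ) + (1 : ℕ)) * th k = Real.pi := by
    rw [← th_mul k]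
    push_cast
    ring
  rw [e, Real.sin_pi]
  simp

theorem Y_one (k : ℕ) (ω : ℤ → ℝ) : Y k (0 + 1) ω = - w k 0 ω := by
  unfold Y w
  rw [Finset.sum_range_succ']
  simp only [Nat.cast_zero, add_zero, zero_mul, Real.sin_zero, mul_zero]
  rw [← Finset.sum_neg_distrib]
  refine Finset.sum_congr rfl fun j _ => ?_
  have e : (0 : ℤ) + 1 + j = ((j + 1 : ℕ) : ℤ) := by push_cast; ring
  rw [e, pow_succ]
  push_cast
  ring

theorem X_prob {k : ℕ} (hk : 1 ≤ k) : Pr.real {ω | X k 0 ω = true} = k / (2 * (k + 1)) := by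
  have h1 : {ω | X k 0 ω = true} = {ω | 0 < w k 1 ω ∧ 0 ≤ w k 0 ω} := by
    ext ω
    simp only [X, Set.mem_ofPred_eq, decide_eq_true_eq, Y_zero, Y_one]
    constructor
    · rintro ⟨h2, h3⟩
      exact ⟨h2, by linarith⟩
    · rintro ⟨h2, h3⟩
      exact ⟨h2, by linarith⟩
  have hm1 : MeasurableSet {ω | w k 1 ω = 0} :=
    measurableSet_eq_fun (measurable_w k 1) measurable_const
  have hmp : MeasurableSet {ω | 0 < w k 1 ω ∧ 0 ≤ w k 0 ω} :=
    (measurableSet_lt measurable_const (measurable_w k 1)).inter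
      (measurableSet_le measurable_const (measurable_w k 0))
  have h0 : Pr.real {ω | w k 1 ω = 0} = 0 := by
    unfold Measure.real
    rw [w_one_null hk]
    rfl
  -- the set of the points with nonnegative `w 0`
  have h2 : Pr.real {ω | 0 ≤ w k 0 ω} ≤ Pr.real {ω | 0 < w k 1 ω ∧ 0 ≤ w k 0 ω}
      + Pr.real (E k 0) + Pr.real {ω | w k 1 ω = 0} := by
    refine le_trans (measureReal_mono (s₂ := ({ω | 0 < w k 1 ω ∧ 0 ≤ w k 0 ω} ∪ E k 0)
      ∪ {ω | w k 1 ω = 0}) ?_) ?_
    · intro ω hω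
      simp only [Set.mem_ofPred_eq] at hω
      simp only [E, Set.mem_union, Set.mem_ofPred_eq, zero_add]
      rcases lt_trichotomy (w k 1 ω) 0 with h | h | h
      · exact Or.inl (Or.inr ⟨hω, h⟩)
      · exact Or.inr h
      · exact Or.inl (Or.inl ⟨h, hω⟩)
    · exact (measureReal_union_le _ _).trans
        (add_le_add (measureReal_union_le _ _) le_rfl)
  have h3 : Pr.real {ω | 0 < w k 1 ω ∧ 0 ≤ w k 0 ω} + Pr.real (E k 0)
      ≤ Pr.real {ω | 0 ≤ w k 0 ω} := by
    rw [← measureReal_union _ (measurableSet_E k 0)]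
    · refine measureReal_mono ?_
      rintro ω (h | h)
      · exact h.2
      · exact h.1
    · rw [Set.disjoint_left]
      rintro ω ⟨h4, -⟩ ⟨-, h5⟩
      rw [zero_add] at h5
      linarith
  rw [h1]
  rw [(w_pos_half hk).2, E_prob hk] at h2 h3
  rw [h0] at h2
  have hk0 : (0 : ℝ) < (k : ℝ) + 1 := by positivity
  have h6 : (k : ℝ) / (2 * (k + 1)) = 1 / 2 - 1 / (2 * (k + 1)) := by
    field_simp
    ring
  rw [h6]
  linarith

/-- the shift -/
theorem X_shift (k : ℕ) (i : ℤ) (ω : ℤ → ℝ) : X k (i + 1) ω = X k i (fun j => ω (j + 1)) := by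
  have h : ∀ i : ℤ, Y k (i + 1) ω = Y k i (fun j => ω (j + 1)) := by
    intro i
    unfold Y
    refine Finset.sum_congr rfl fun j _ => ?_
    have e : i + 1 + (j : ℤ) = i + j + 1 := by ring
    rw [e]
  unfold X
  rw [h i, h (i + 1)]

theorem measurable_Y {k : ℕ} {i : ℤ} {S : Set ℤ} (hS : ∀ j : ℕ, j < k → i + j ∈ S) :
    Measurable[sig S] (Y k i) := by
  unfold Y
  refine Finset.measurable_sum _ fun j hj => ?_
  exact Measurable.const_mul (meas_coord (hS j (Finset.mem_range.1 hj))) _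

theorem measurable_X' {k : ℕ} {i : ℤ} {S : Set ℤ} (hS : ∀ j : ℕ, j ≤ k → i + j ∈ S) :
    Measurable[sig S] (X k i) := by
  have h1 : Measurable[sig S] (Y k i) := measurable_Y fun j hj => hS j hj.le
  have h2 : Measurable[sig S] (Y k (i + 1)) := measurable_Y fun j hj => by
    have := hS (j + 1) (by omega)
    have e : i + 1 + (j : ℤ) = i + ((j + 1 : ℕ) : ℤ) := by push_cast; ring
    rw [e]
    exact this
  refine @measurable_to_bool _ (sig S) _ ?_
  have e : X k i ⁻¹' {true} = {ω | 0 < Y k i ω} ∩ {ω | Y k (i + 1) ω ≤ 0} := by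
    ext ω
    simp [X]
  rw [e]
  exact MeasurableSet.inter (measurableSet_lt measurable_const h1)
    (measurableSet_le h2 measurable_const)

theorem hardcore (k : ℕ) : IsHardCore k Pr (X k) := by
  have hX : ∀ i, Measurable (X k i) := fun i =>
    (measurable_X' (S := Set.univ) (fun j _ => Set.mem_univ _)).mono (sig_le _) le_rfl
  refine ⟨inferInstance, hX, ?_, ?_, ?_⟩
  · refine Filter.Eventually.of_forall fun ω => ?_
    rintro ⟨i, h1, h2⟩
    simp only [X, decide_eq_true_eq] at h1 h2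
    linarith [h1.2, h2.1]
  · have h1 := map_perm (Equiv.addRight (1 : ℤ))
    have h2 : (fun (ω : ℤ → ℝ) i => X k (i + 1) ω)
        = (fun (ω : ℤ → ℝ) i => X k i ω) ∘ (fun (ω : ℤ → ℝ) i => ω (Equiv.addRight (1 : ℤ) i)) := by
      funext ω i
      exact X_shift k i ω
    rw [h2, ← Measure.map_map (measurable_pi_iff.2 hX)
      (measurable_pi_iff.2 fun _ => measurable_pi_apply _), h1]
  · intro A B hAB
    let S : Set ℤ := {x | ∃ a ∈ A, a ≤ x ∧ x ≤ a + k}
    let S' : Set ℤ := {x | ∃ b ∈ B, b ≤ x ∧ x ≤ b + k}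
    have hd : Disjoint S S' := by
      rw [Set.disjoint_left]
      rintro x ⟨a, ha, h1, h2⟩ ⟨b, hb, h3, h4⟩
      have := hAB a ha b hb
      rw [lt_abs] at this
      omega
    have hA : Measurable[sig S] (fun ω (a : A) => X k a ω) := by
      refine @measurable_pi_iff _ _ _ (sig S) _ _ |>.2 fun a => ?_
      exact measurable_X' fun j hj => ⟨a, a.2, by omega, by omega⟩
    have hB : Measurable[sig S'] (fun ω (b : B) => X k b ω) := by
      refine @measurable_pi_iff _ _ _ (sig S') _ _ |>.2 fun b => ?_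
      exact measurable_X' fun j hj => ⟨b, b.2, by omega, by omega⟩
    rw [IndepFun_iff_Indep]
    exact indep_of_indep_of_le_left (indep_of_indep_of_le_right (sig_indep hd) hB.comap_le)
      hA.comap_le

end AllK

end HC38bc51
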