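import Mathlib
import Pool.Agent.Work.MP_38bc51_pr.Defs

/-!
# An upper bound for the marginal of a `k`-dependent hard-core process

Without two consecutive zeros in `[0, k + 1]` the values alternate, so `X (k + 1)` is determined by
`X 0`; but the two are independent.
-/

namespace HC38bc51

open MeasureTheory ProbabilityTheory

namespace AllK

variable {k : ℕ} {Ω : Type} [MeasurableSpace Ω] {P : Measure Ω} {X : ℤ → Ω → Bool}

theorem stat_prob (h : IsHardCore k P X) (i : ℤ) :
    P.real {ω | X (i + 1) ω = true} = P.real {ω | X i ω = true} := by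
  have hs : MeasurableSet {x : ℤ → Bool | x i = true} := by
    have h1 : Measurable (fun x : ℤ → Bool => x i) := measurable_pi_apply i
    exact h1 (measurableSet_singleton true)
  have h1 : P.map (fun ω i => X (i + 1) ω) {x | x i = true}
      = P.map (fun ω i => X i ω) {x | x i = true} := by rw [h.stat]
  rw [Measure.map_apply (measurable_pi_iff.2 fun j => h.meas (j + 1)) hs,
    Measure.map_apply (measurable_pi_iff.2 fun j => h.meas j) hs] at h1
  unfold Measure.real
  exact congrArg ENNReal.toReal h1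

theorem prob_eq (h : IsHardCore k P X) (n : ℕ) :
    P.real {ω | X n ω = true} = P.real {ω | X 0 ω = true} := by
  induction n with
  | zero => rfl
  | succ n ih =>
    have := stat_prob h n
    rw [← ih, ← this]
    push_cast
    rfl

theorem ms (h : IsHardCore k P X) (i : ℤ) (b : Bool) : MeasurableSet {ω | X i ω = b} :=
  h.meas i (measurableSet_singleton b)

theorem prob_false (h : IsHardCore k P X) (i : ℤ) :
    P.real {ω | X i ω = false} = 1 - P.real {ω | X i ω = true} := by
  have := h.prob
  have e : {ω | X i ω = false} = {ω | X i ω = true}ᶜ := by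
    ext ω
    simp
  rw [e, probReal_compl_eq_one_sub (ms h i true)]

theorem prob_def (h : IsHardCore k P X) (n : ℕ) :
    P.real {ω | X n ω = false ∧ X (n + 1 : ℕ) ω = false}
      = 1 - 2 * P.real {ω | X 0 ω = true} := by
  have := h.prob
  have hnull : P.real {ω | X n ω = true ∧ X (n + 1 : ℕ) ω = true} = 0 := by
    have h1 := h.hard
    rw [ae_iff] at h1
    have h2 : P {ω | X n ω = true ∧ X (n + 1 : ℕ) ω = true} = 0 := by
      refine measure_mono_null ?_ h1
      intro ω hω
      simp only [Set.mem_ofPred_eq, not_not] at hω ⊢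
      refine ⟨n, hω.1, ?_⟩
      have := hω.2
      push_cast at this
      exact this
    unfold Measure.real
    rw [h2]
    rfl
  have e1 : {ω | X n ω = false} = {ω | X n ω = false ∧ X (n + 1 : ℕ) ω = false}
      ∪ {ω | X n ω = false ∧ X (n + 1 : ℕ) ω = true} := by
    ext ω
    simp only [Set.mem_ofPred_eq, Set.mem_union]
    cases X (n + 1 : ℕ) ω <;> simp
  have e2 : {ω | X (n + 1 : ℕ) ω = true} = {ω | X n ω = true ∧ X (n + 1 : ℕ) ω = true}
      ∪ {ω | X n ω = false ∧ X (n + 1 : ℕ) ω = true} := by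
    ext ω
    simp only [Set.mem_ofPred_eq, Set.mem_union]
    cases X n ω <;> simp
  have hm : MeasurableSet {ω | X n ω = false ∧ X (n + 1 : ℕ) ω = true} :=
    (ms h n false).inter (ms h (n + 1 : ℕ) true)
  have h3 : P.real {ω | X n ω = false} = P.real {ω | X n ω = false ∧ X (n + 1 : ℕ) ω = false}
      + P.real {ω | X n ω = false ∧ X (n + 1 : ℕ) ω = true} := by
    conv_lhs => rw [e1]
    refine measureReal_union ?_ hm
    rw [Set.disjoint_left]
    rintro ω ⟨-, h4⟩ ⟨-, h5⟩
    rw [h4] at h5
    exact absurd h5 (by decide)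
  have h4 : P.real {ω | X (n + 1 : ℕ) ω = true}
      = P.real {ω | X n ω = true ∧ X (n + 1 : ℕ) ω = true}
      + P.real {ω | X n ω = false ∧ X (n + 1 : ℕ) ω = true} := by
    conv_lhs => rw [e2]
    refine measureReal_union ?_ hm
    rw [Set.disjoint_left]
    rintro ω ⟨h4, -⟩ ⟨h5, -⟩
    rw [h4] at h5
    exact absurd h5 (by decide)
  rw [prob_false, prob_eq h n] at h3
  rw [prob_eq h (n + 1), hnull] at h4
  · linarith
  · exact h

theorem indep_ends (h : IsHardCore k P X) (b c : Bool) :
    P.real {ω | X 0 ω = b ∧ X (k + 1 : ℕ) ω = c}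
      = P.real {ω | X 0 ω = b} * P.real {ω | X (k + 1 : ℕ) ω = c} := by
  have h1 := h.dep {0} {((k + 1 : ℕ) : ℤ)} (by
    rintro a rfl b rfl
    rw [lt_abs]
    right
    push_cast
    omega)
  have m1 : Measurable (fun x : (({0} : Set ℤ) → Bool) => x ⟨0, rfl⟩) := measurable_pi_apply _
  have m2 : Measurable (fun x : (({((k + 1 : ℕ) : ℤ)} : Set ℤ) → Bool) =>
    x ⟨((k + 1 : ℕ) : ℤ), rfl⟩) := measurable_pi_apply _
  have h2 : IndepFun (X 0) (X (k + 1 : ℕ)) P := h1.comp m1 m2
  have h3 := h2.measure_inter_preimage_eq_mul {b} {c} (measurableSet_singleton b)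
    (measurableSet_singleton c)
  have h4 := congrArg ENNReal.toReal h3
  rw [ENNReal.toReal_mul] at h4
  exact h4

omit [MeasurableSpace Ω] in
/-- alternation -/
theorem alt (ω : Ω) (hd : ∀ n ∈ Finset.range (k + 1), ¬ (X n ω = false ∧ X (n + 1 : ℕ) ω = false))
    (hh : ¬ ∃ i : ℤ, X i ω = true ∧ X (i + 1) ω = true) :
    ∀ n, n ≤ k + 1 → (X n ω = if Even n then X 0 ω else !(X 0 ω)) := by
  intro n
  induction n with
  | zero => intro _; simp
  | succ n ih =>
    intro hn
    have h1 := ih (by omega)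
    have h2 := hd n (Finset.mem_range.2 (by omega))
    have h3 : ¬ (X n ω = true ∧ X (n + 1 : ℕ) ω = true) := by
      intro h
      refine hh ⟨n, h.1, ?_⟩
      have := h.2
      push_cast at this
      exact this
    have h4 : X (n + 1 : ℕ) ω = !(X n ω) := by
      cases hx : X n ω <;> cases hy : X (n + 1 : ℕ) ω <;> simp_all
    rw [h4, h1]
    by_cases he : Even n
    · have : ¬ Even (n + 1) := by
        rw [Nat.even_add_one]
        exact not_not.2 he
      rw [if_pos he, if_neg this]
    · have : Even (n + 1) := by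
        rw [Nat.even_add_one]
        exact he
      rw [if_neg he, if_pos this, Bool.not_not]

theorem main_ineq (h : IsHardCore k P X) :
    2 * P.real {ω | X 0 ω = true} * (1 - P.real {ω | X 0 ω = true})
      ≤ ((k : ℝ) + 1) * (1 - 2 * P.real {ω | X 0 ω = true}) := by
  have := h.prob
  obtain ⟨p, hp⟩ : ∃ p, p = P.real {ω | X 0 ω = true} := ⟨_, rfl⟩
  -- the union of the defects
  let D : Set Ω := ⋃ n ∈ Finset.range (k + 1), {ω | X n ω = false ∧ X (n + 1 : ℕ) ω = false}
  have hD : P.real D ≤ ((k : ℝ) + 1) * (1 - 2 * p) := by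
    refine (measureReal_biUnion_finset_le _ _).trans ?_
    rw [Finset.sum_congr rfl fun n _ => prob_def h n, Finset.sum_const, Finset.card_range,
      nsmul_eq_mul, ← hp]
    push_cast
    exact le_rfl
  let N : Set Ω := {ω | ¬ ¬ ∃ i : ℤ, X i ω = true ∧ X (i + 1) ω = true}
  have hN : P.real N = 0 := by
    have h1 := h.hard
    rw [ae_iff] at h1
    unfold Measure.real
    rw [h1]
    rfl
  have hcov : ∀ M : Set Ω, (∀ ω ∈ M, ω ∉ D → ω ∉ N → False) → P.real M ≤ ((k : ℝ) + 1) * (1 - 2 * p) := by
    intro M hM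
    have h1 : P.real M ≤ P.real (D ∪ N) := by
      refine measureReal_mono ?_
      intro ω hω
      by_contra hcon
      rw [Set.mem_union, not_or] at hcon
      exact hM ω hω hcon.1 hcon.2
    have h2 := measureReal_union_le (μ := P) D N
    linarith
  have halt : ∀ ω, ω ∉ D → ω ∉ N →
      X (k + 1 : ℕ) ω = if Even (k + 1) then X 0 ω else !(X 0 ω) := by
    intro ω h1 h2
    refine alt ω ?_ ?_ (k + 1) le_rfl
    · intro n hn hcon
      exact h1 (Set.mem_biUnion hn hcon)
    · intro hcon
      exact h2 (not_not.2 hcon)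
  have hq : P.real {ω | X (k + 1 : ℕ) ω = true} = p := by
    rw [prob_eq h (k + 1), hp]
  have hq' : P.real {ω | X (k + 1 : ℕ) ω = false} = 1 - p := by
    rw [prob_false h, hq]
  have hp' : P.real {ω | X 0 ω = false} = 1 - p := by
    rw [prob_false h, hp]
  rw [← hp]
  by_cases he : Even (k + 1)
  · have h1 := hcov ({ω | X 0 ω = true ∧ X (k + 1 : ℕ) ω = false}
      ∪ {ω | X 0 ω = false ∧ X (k + 1 : ℕ) ω = true}) (by
        rintro ω hω h2 h3
        have h4 := halt ω h2 h3
        rw [if_pos he] at h4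
        rcases hω with ⟨h5, h6⟩ | ⟨h5, h6⟩
        · rw [h4, h5] at h6
          exact absurd h6 (by decide)
        · rw [h4, h5] at h6
          exact absurd h6 (by decide))
    have hdis : Disjoint {ω | X 0 ω = true ∧ X (k + 1 : ℕ) ω = false}
        {ω | X 0 ω = false ∧ X (k + 1 : ℕ) ω = true} := by
      rw [Set.disjoint_left]
      rintro ω ⟨h4, -⟩ ⟨h5, -⟩
      rw [h4] at h5
      exact absurd h5 (by decide)
    have hms : MeasurableSet {ω | X 0 ω = false ∧ X (k + 1 : ℕ) ω = true} :=
      (ms h 0 false).inter (ms h (k + 1 : ℕ) true)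
    rw [measureReal_union hdis hms, indep_ends h, indep_ends h, hq, hq', hp', ← hp] at h1
    linarith
  · have h1 := hcov ({ω | X 0 ω = true ∧ X (k + 1 : ℕ) ω = true}
      ∪ {ω | X 0 ω = false ∧ X (k + 1 : ℕ) ω = false}) (by
        rintro ω hω h2 h3
        have h4 := halt ω h2 h3
        rw [if_neg he] at h4
        rcases hω with ⟨h5, h6⟩ | ⟨h5, h6⟩
        · rw [h4, h5] at h6
          exact absurd h6 (by decide)
        · rw [h4, h5] at h6
          exact absurd h6 (by decide))
    have hdis : Disjoint {ω | X 0 ω = true ∧ X (k + 1 : ℕ) ω = true}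
        {ω | X 0 ω = false ∧ X (k + 1 : ℕ) ω = false} := by
      rw [Set.disjoint_left]
      rintro ω ⟨h4, -⟩ ⟨h5, -⟩
      rw [h4] at h5
      exact absurd h5 (by decide)
    have hms : MeasurableSet {ω | X 0 ω = false ∧ X (k + 1 : ℕ) ω = false} :=
      (ms h 0 false).inter (ms h (k + 1 : ℕ) false)
    rw [measureReal_union hdis hms, indep_ends h, indep_ends h, hq, hq', hp', ← hp] at h1
    nlinarith [sq_nonneg (2 * p - 1)]

theorem upper_all (h : IsHardCore k P X) :
    P.real {ω | X 0 ω = true} ≤ 1 / 2 - 1 / (4 * ((k : ℝ) + 2)) := by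
  have h1 := main_ineq h
  have h2 : 0 ≤ 1 - 2 * P.real {ω | X 0 ω = true} := by
    rw [← prob_def h 0]
    exact measureReal_nonneg
  generalize P.real {ω | X 0 ω = true} = p at h1 h2
  by_contra hcon
  rw [not_le] at hcon
  have hk : (0 : ℝ) ≤ k := Nat.cast_nonneg _
  have hk2 : (0 : ℝ) < (k : ℝ) + 2 := by positivity
  obtain ⟨e, he⟩ : ∃ e, e = 1 / 2 - p := ⟨_, rfl⟩
  have he0 : 0 ≤ e := by rw [he]; linarith
  have he1 : e * (4 * ((k : ℝ) + 2)) < 1 := by
    have : e < 1 / (4 * ((k : ℝ) + 2)) := by rw [he]; linarith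
    rwa [lt_div_iff₀ (by positivity)] at this
  have hp : p = 1 / 2 - e := by rw [he]; ring
  rw [hp] at h1
  have h3 : 1 / 2 - 2 * e ^ 2 ≤ ((k : ℝ) + 1) * (2 * e) := by nlinarith
  have he4 : e < 1 / 8 := by nlinarith
  nlinarith

end AllK

end HC38bc51
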